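import Pool.Agent.Lib.MP_6ff8d9_an_h69r.Dom
import Pool.Agent.Lib.MP_6ff8d9_an_h22.Rows

/-!
# Row NODOM: extreme ⇒ no nonzero polynomial is dominated by `√(|Q|²-|P|²)` on the sphere
-/

open Metric Filter Topology MvPolynomial
open scoped ComplexConjugate

namespace Pool.Agent.Lib.MP_6ff8d9_an.H22

open Pool.Agent.Lib.MP_6ff8d9_an Pool.Agent.Lib.MP_6ff8d9_an.Hom

noncomputable section

theorem nodom : NODOM := by
  intro n P Q hn hA hex p hp
  obtain ⟨C, hC0, hC⟩ := hp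
  have hlt : ∀ z ∈ ball (0 : Cn n) 1, ‖eval (fun i => z i) P‖ < ‖eval (fun i => z i) Q‖ := by
    intro z hz
    exact hA.lt _ ((M5.mem_ball_iff z).1 hz)
  have hno := Rat69.noDomR_of_extreme hn P Q hlt hex
  have hpos : 0 < C ^ 2 + 1 := by positivity
  have h1 : MvPolynomial.C (((C ^ 2 + 1 : ℝ) : ℂ)⁻¹) * p ^ 2 = 0 := by
    refine hno _ fun z hz => ?_
    rw [map_mul, eval_C, map_pow, norm_mul, norm_inv, norm_pow, Complex.norm_real,
      Real.norm_of_nonneg hpos.le]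
    have h2 := hC z hz
    have h3 : 0 ≤ dfc P Q z := by
      have := hA.le z (le_of_eq hz)
      unfold dfc
      nlinarith [norm_nonneg (eval z P), norm_nonneg (eval z Q)]
    have h4 : ‖eval z p‖ ^ 2 ≤ C ^ 2 * dfc P Q z := by
      calc ‖eval z p‖ ^ 2 ≤ (C * √(dfc P Q z)) ^ 2 :=
            pow_le_pow_left₀ (norm_nonneg _) h2 2
        _ = C ^ 2 * dfc P Q z := by rw [mul_pow, Real.sq_sqrt h3]
    rw [inv_mul_le_iff₀ hpos]
    have h5 : dfc P Q z = ‖eval z Q‖ ^ 2 - ‖eval z P‖ ^ 2 := rfl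
    rw [← h5]
    nlinarith
  rcases mul_eq_zero.1 h1 with h2 | h2
  · exfalso
    rw [C_eq_zero, inv_eq_zero] at h2
    have : (C ^ 2 + 1 : ℝ) = 0 := by exact_mod_cast h2
    exact hpos.ne' this
  · exact pow_eq_zero_iff (two_ne_zero) |>.1 h2

end

end Pool.Agent.Lib.MP_6ff8d9_an.H22
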