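import Pool.Agent.Lib.MP_6ff8d9_an_h20.Dom

/-!
# A polynomial dominated by `|Q|² - |P|²` on the sphere destroys extremality of `(Q + P)/(Q - P)`

Zeros of `Q` on the sphere are allowed.
-/

open Metric Filter Topology MvPolynomial
open scoped ComplexConjugate

namespace Pool.Agent.Lib.MP_6ff8d9_an.Rat69

open Hom Hom.H20 M2 M5

noncomputable section

/-- the Cayley transform `(1 + P/Q)/(1 - P/Q)` -/
def gR {n : ℕ} (P Q : MvPolynomial (Fin n) ℂ) (z : Cn n) : ℂ :=
  (eval (fun i => z i) Q + eval (fun i => z i) P) / (eval (fun i => z i) Q - eval (fun i => z i) P)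

/-- no nonzero polynomial is dominated by `|Q|² - |P|²` on the sphere -/
def NoDomR {n : ℕ} (P Q : MvPolynomial (Fin n) ℂ) : Prop :=
  ∀ p : MvPolynomial (Fin n) ℂ,
    (∀ z ∈ Sph n, ‖eval z p‖ ≤ ‖eval z Q‖ ^ 2 - ‖eval z P‖ ^ 2) → p = 0

/-- `|P| ≤ |Q|` on the closed ball -/
lemma le_closed {n : ℕ} (P Q : MvPolynomial (Fin n) ℂ)
    (hlt : ∀ z ∈ ball (0 : Cn n) 1, ‖eval (fun i => z i) P‖ < ‖eval (fun i => z i) Q‖)
    (z : Fin n → ℂ) (hz : ∑ i, ‖z i‖ ^ 2 ≤ 1) : ‖eval z P‖ ≤ ‖eval z Q‖ := by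
  have hcl : IsClosed {w : Cn n | ‖eval (fun i => w i) P‖ ≤ ‖eval (fun i => w i) Q‖} :=
    isClosed_le (differentiable_eval P).continuous.norm (differentiable_eval Q).continuous.norm
  have hsub : closure (ball (0 : Cn n) 1) ⊆
      {w : Cn n | ‖eval (fun i => w i) P‖ ≤ ‖eval (fun i => w i) Q‖} :=
    closure_minimal (fun w hw => (hlt w hw).le) hcl
  have hmem : (WithLp.toLp 2 z : Cn n) ∈ closure (ball (0 : Cn n) 1) := by
    rw [closure_ball (0 : Cn n) one_ne_zero, mem_closedBall_zero_iff, EuclideanSpace.norm_eq,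
      Real.sqrt_le_iff]
    exact ⟨zero_le_one, by rw [one_pow]; exact hz⟩
  exact hsub hmem

/-- the maximum principle -/
theorem dom_ball_rat {n : ℕ} (hn : 1 ≤ n) (P Q p : MvPolynomial (Fin n) ℂ)
    (hlt : ∀ z ∈ ball (0 : Cn n) 1, ‖eval (fun i => z i) P‖ < ‖eval (fun i => z i) Q‖)
    (hp : ∀ z ∈ Sph n, ‖eval z p‖ ≤ ‖eval z Q‖ ^ 2 - ‖eval z P‖ ^ 2) {M : ℝ}
    (hM : ∀ z ∈ Sph n, ‖eval z Q‖ ^ 2 ≤ M) (w : Cn n) (hw : w ∈ ball (0 : Cn n) 1) :
    ‖eval (fun i => w i) p‖ ≤
      2 * M * (1 - ‖eval (fun i => w i) P / eval (fun i => w i) Q‖ ^ 2) := by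
  have : Nonempty (Fin n) := ⟨⟨0, hn⟩⟩
  set F := eval (fun i => w i) P / eval (fun i => w i) Q with hF
  have hQw : 0 < ‖eval (fun i => w i) Q‖ := (norm_nonneg _).trans_lt (hlt w hw)
  have hQw0 : eval (fun i => w i) Q ≠ 0 := norm_pos_iff.1 hQw
  have hF1 : ‖F‖ < 1 := by
    rw [hF, norm_div, div_lt_one hQw]
    exact hlt w hw
  have hsum : ∀ z : Cn n, ‖z‖ ≤ 1 → ∑ i, ‖z i‖ ^ 2 ≤ 1 := by
    intro z hz
    rw [← EuclideanSpace.norm_sq_eq]
    nlinarith [norm_nonneg z]
  have hle : ∀ z : Cn n, ‖z‖ ≤ 1 → ‖eval (fun i => z i) P‖ ≤ ‖eval (fun i => z i) Q‖ :=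
    fun z hz => le_closed P Q hlt _ (hsum z hz)
  have hden : ∀ z : Cn n, ‖z‖ ≤ 1 → ‖eval (fun i => z i) Q‖ - ‖eval (fun i => z i) P‖ * ‖F‖ ≤
      ‖eval (fun i => z i) Q - eval (fun i => z i) P * conj F‖ := by
    intro z _
    have h1 := norm_sub_norm_le (eval (fun i => z i) Q) (eval (fun i => z i) P * conj F)
    rwa [norm_mul, RCLike.norm_conj] at h1
  have hden2 : ∀ z : Cn n, ‖z‖ ≤ 1 → (1 - ‖F‖) * ‖eval (fun i => z i) Q‖ ≤
      ‖eval (fun i => z i) Q - eval (fun i => z i) P * conj F‖ := by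
    intro z hz
    have h1 := hden z hz
    have h2 := hle z hz
    nlinarith [norm_nonneg F]
  have hne : ∀ z : Cn n, ‖z‖ ≤ 1 → eval (fun i => z i) Q ≠ 0 →
      eval (fun i => z i) Q - eval (fun i => z i) P * conj F ≠ 0 := by
    intro z hz hQ
    have h1 := hden2 z hz
    have h2 : 0 < ‖eval (fun i => z i) Q‖ := norm_pos_iff.2 hQ
    have h3 : 0 < (1 - ‖F‖) * ‖eval (fun i => z i) Q‖ := mul_pos (by linarith) h2
    exact norm_pos_iff.1 (h3.trans_le h1)
  set H : Cn n → ℂ := fun z => eval (fun i => z i) Q * eval (fun i => z i) p /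
    (eval (fun i => z i) Q - eval (fun i => z i) P * conj F) with hH
  -- `|H| (1 - |F|) ≤ |p|`
  have hHp : ∀ z : Cn n, ‖z‖ ≤ 1 → ‖H z‖ * (1 - ‖F‖) ≤ ‖eval (fun i => z i) p‖ := by
    intro z hz
    by_cases hQ : eval (fun i => z i) Q = 0
    · simp only [hH, hQ, zero_mul, zero_div, norm_zero]
      positivity
    · have h2 : 0 < ‖eval (fun i => z i) Q - eval (fun i => z i) P * conj F‖ :=
        norm_pos_iff.2 (hne z hz hQ)
      have h3 := hden2 z hz
      simp only [hH]
      rw [norm_div, norm_mul, div_mul_eq_mul_div, div_le_iff₀ h2]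
      nlinarith [norm_nonneg (eval (fun i => z i) p)]
  have hcQ := (differentiable_eval Q).continuous
  have hcP := (differentiable_eval P).continuous
  have hcp := (differentiable_eval p).continuous
  have hmax : ‖H w‖ ≤ 2 * M := by
    refine Complex.norm_le_of_forall_mem_frontier_norm_le (U := ball (0 : Cn n) 1)
      (f := H) isBounded_ball ?_ ?_ (subset_closure hw)
    · refine ⟨?_, ?_⟩
      · intro z hz
        have hz1 : ‖z‖ ≤ 1 := (mem_ball_zero_iff.1 hz).le
        have hQ : eval (fun i => z i) Q ≠ 0 :=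
          norm_pos_iff.1 ((norm_nonneg _).trans_lt (hlt z hz))
        have he : H = fun z : Cn n => (eval (fun i => z i) Q * eval (fun i => z i) p) *
            (eval (fun i => z i) Q - eval (fun i => z i) P * conj F)⁻¹ := by
          funext z
          exact div_eq_mul_inv _ _
        rw [he]
        exact (((differentiable_eval Q z).fun_mul (differentiable_eval p z)).fun_mul
          (((differentiable_eval Q z).fun_sub ((differentiable_eval P z).mul_const
            (conj F))).fun_inv (hne z hz1 hQ))).differentiableWithinAt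
      · intro z hz
        rw [closure_ball (0 : Cn n) one_ne_zero, mem_closedBall_zero_iff] at hz
        by_cases hQ : eval (fun i => z i) Q = 0
        · -- here `p z = 0`
          have hz1 : z ∉ ball (0 : Cn n) 1 := by
            intro h
            have h1 := hlt z h
            rw [hQ, norm_zero] at h1
            exact absurd h1 (not_lt.2 (norm_nonneg _))
          have hzS : (fun i => z i) ∈ Sph n := by
            show ∑ i, ‖z i‖ ^ 2 = 1
            rw [← EuclideanSpace.norm_sq_eq]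
            rw [mem_ball_zero_iff] at hz1
            have : ‖z‖ = 1 := le_antisymm hz (not_lt.1 hz1)
            rw [this, one_pow]
          have hp0 : eval (fun i => z i) p = 0 := by
            have h1 := hp _ hzS
            rw [hQ, norm_zero] at h1
            have h2 : ‖eval (fun i => z i) p‖ ≤ 0 := by nlinarith [norm_nonneg (eval (fun i => z i) P)]
            exact norm_le_zero_iff.1 h2
          have hHz : H z = 0 := by simp only [hH, hQ, zero_mul, zero_div]
          show Tendsto H (𝓝[closure (ball 0 1)] z) (𝓝 (H z))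
          rw [hHz, tendsto_zero_iff_norm_tendsto_zero]
          have hlim : Tendsto (fun y : Cn n => ‖eval (fun i => y i) p‖ / (1 - ‖F‖))
              (𝓝[closure (ball 0 1)] z) (𝓝 0) := by
            have h1 : Tendsto (fun y : Cn n => ‖eval (fun i => y i) p‖ / (1 - ‖F‖)) (𝓝 z)
                (𝓝 (‖eval (fun i => z i) p‖ / (1 - ‖F‖))) :=
              (hcp.norm.div_const _).tendsto z
            rw [hp0, norm_zero, zero_div] at h1
            exact h1.mono_left nhdsWithin_le_nhds
          refine squeeze_zero' (Eventually.of_forall fun y => norm_nonneg _) ?_ hlim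
          filter_upwards [self_mem_nhdsWithin] with y hy
          rw [closure_ball (0 : Cn n) one_ne_zero, mem_closedBall_zero_iff] at hy
          rw [le_div_iff₀ (by linarith)]
          exact hHp y hy
        · refine ContinuousAt.continuousWithinAt ?_
          exact (hcQ.continuousAt.mul hcp.continuousAt).div
            (hcQ.continuousAt.sub (hcP.continuousAt.mul continuousAt_const)) (hne z hz hQ)
    · intro z hz
      rw [frontier_ball (0 : Cn n) one_ne_zero, mem_sphere_zero_iff_norm] at hz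
      have hzS : (fun i => z i) ∈ Sph n := by
        show ∑ i, ‖z i‖ ^ 2 = 1
        rw [← EuclideanSpace.norm_sq_eq, hz, one_pow]
      have h1 := hp _ hzS
      have h2 := hden z hz.le
      have h3 := hle z hz.le
      have h5 := hM _ hzS
      have hM0 : 0 ≤ M := (sq_nonneg _).trans h5
      by_cases hQ : eval (fun i => z i) Q = 0
      · simp only [hH, hQ, zero_mul, zero_div, norm_zero]
        positivity
      · have h4 : 0 < ‖eval (fun i => z i) Q - eval (fun i => z i) P * conj F‖ :=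
          norm_pos_iff.2 (hne z hz.le hQ)
        simp only [hH]
        rw [norm_div, norm_mul, div_le_iff₀ h4]
        set q := ‖eval (fun i => z i) Q‖ with hq
        set a := ‖eval (fun i => z i) P‖ with ha
        have hq0 : 0 ≤ q := norm_nonneg _
        have ha0 : 0 ≤ a := norm_nonneg _
        have h6 : q - a ≤ ‖eval (fun i => z i) Q - eval (fun i => z i) P * conj F‖ := by
          nlinarith [norm_nonneg F]
        calc q * ‖eval (fun i => z i) p‖ ≤ q * (q ^ 2 - a ^ 2) :=
              mul_le_mul_of_nonneg_left h1 hq0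
          _ = (q * (q + a)) * (q - a) := by ring
          _ ≤ (2 * M) * (q - a) := by
              refine mul_le_mul_of_nonneg_right ?_ (by linarith)
              nlinarith
          _ ≤ (2 * M) * ‖eval (fun i => z i) Q - eval (fun i => z i) P * conj F‖ :=
              mul_le_mul_of_nonneg_left h6 (by positivity)
  have h2 : 0 < 1 - ‖F‖ ^ 2 := by nlinarith [norm_nonneg F]
  have h1 : eval (fun i => w i) Q - eval (fun i => w i) P * conj F =
      eval (fun i => w i) Q * ((1 - ‖F‖ ^ 2 : ℝ) : ℂ) := by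
    have h3 : eval (fun i => w i) P = eval (fun i => w i) Q * F := by
      rw [hF]
      field_simp
    rw [h3, mul_assoc, Complex.mul_conj, Complex.normSq_eq_norm_sq]
    push_cast
    ring
  have h3 : H w = eval (fun i => w i) p / ((1 - ‖F‖ ^ 2 : ℝ) : ℂ) := by
    simp only [hH]
    rw [h1, mul_div_mul_left _ _ hQw0]
  rw [h3, norm_div, Complex.norm_real, Real.norm_of_nonneg h2.le, div_le_iff₀ h2] at hmax
  exact hmax

lemma gR_eq {n : ℕ} (P Q : MvPolynomial (Fin n) ℂ) {z : Cn n}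
    (hQ : eval (fun i => z i) Q ≠ 0) : gR P Q z =
      (1 + eval (fun i => z i) P / eval (fun i => z i) Q) /
        (1 - eval (fun i => z i) P / eval (fun i => z i) Q) := by
  have h1 : (1 : ℂ) + eval (fun i => z i) P / eval (fun i => z i) Q =
      (eval (fun i => z i) Q + eval (fun i => z i) P) / eval (fun i => z i) Q := by
    field_simp
  have h2 : (1 : ℂ) - eval (fun i => z i) P / eval (fun i => z i) Q =
      (eval (fun i => z i) Q - eval (fun i => z i) P) / eval (fun i => z i) Q := by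
    field_simp
  rw [h1, h2, div_div_div_cancel_right₀ hQ]
  rfl

/-- if `(Q + P)/(Q - P)` is extreme then no nonzero polynomial is dominated by `|Q|² - |P|²` on
the sphere -/
theorem noDomR_of_extreme {n : ℕ} (hn : 1 ≤ n) (P Q : MvPolynomial (Fin n) ℂ)
    (hlt : ∀ z ∈ ball (0 : Cn n) 1, ‖eval (fun i => z i) P‖ < ‖eval (fun i => z i) Q‖)
    (hex : IsExtremePoint n (gR P Q)) : NoDomR P Q := by
  intro p hp
  obtain ⟨⟨hdiff, hre, h0⟩, hext⟩ := hex
  set i₀ : Fin n := ⟨0, hn⟩ with hi₀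
  obtain ⟨C, hC0, hC⟩ := expansion Q
  obtain ⟨M, hM1, hM⟩ : ∃ M : ℝ, 1 ≤ M ∧ ∀ z ∈ Sph n, ‖eval z Q‖ ^ 2 ≤ M := by
    refine ⟨1 + C ^ 2, by nlinarith, fun z hz => ?_⟩
    have h1 := (hC z hz i₀).1
    nlinarith [norm_nonneg (eval z Q)]
  have hQ0 : ∀ z ∈ ball (0 : Cn n) 1, eval (fun i => z i) Q ≠ 0 := fun z hz =>
    norm_pos_iff.1 ((norm_nonneg _).trans_lt (hlt z hz))
  let F : Cn n → ℂ := fun z => eval (fun i => z i) P / eval (fun i => z i) Q
  have hF1 : ∀ z ∈ ball (0 : Cn n) 1, ‖F z‖ < 1 := by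
    intro z hz
    show ‖eval (fun i => z i) P / eval (fun i => z i) Q‖ < 1
    rw [norm_div, div_lt_one (norm_pos_iff.2 (hQ0 z hz))]
    exact hlt z hz
  have hFd : ∀ z ∈ ball (0 : Cn n) 1, DifferentiableAt ℂ F z := by
    intro z hz
    have he : F = fun z : Cn n => eval (fun i => z i) P * (eval (fun i => z i) Q)⁻¹ := by
      funext z
      exact div_eq_mul_inv _ _
    rw [he]
    exact (differentiable_eval P z).fun_mul ((differentiable_eval Q z).fun_inv (hQ0 z hz))
  let k : Cn n → ℂ := fun z =>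
    ((1 / (4 * M) : ℝ) : ℂ) * (z i₀ * eval (fun i => z i) p) / (1 - F z) ^ 2
  have hk : ∀ z ∈ ball (0 : Cn n) 1, ‖k z‖ ≤ (gR P Q z).re / 2 := by
    intro z hz
    have h1 := dom_ball_rat hn P Q p hlt hp hM z hz
    obtain ⟨h2, h3⟩ := cayley_re (hF1 z hz)
    have h4 : (gR P Q z).re = (1 - ‖F z‖ ^ 2) / ‖1 - F z‖ ^ 2 := by
      rw [gR_eq P Q (hQ0 z hz)]
      exact h2
    have h5 : ‖z i₀‖ ≤ 1 := by
      have h6 := coe_sum z hz
      have h7 : ‖z i₀‖ ^ 2 ≤ ∑ i, ‖(fun i => z i) i‖ ^ 2 :=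
        Finset.single_le_sum (f := fun i => ‖(fun i => z i) i‖ ^ 2)
          (fun i _ => by positivity) (Finset.mem_univ i₀)
      nlinarith [norm_nonneg (z i₀)]
    rw [h4]
    show ‖((1 / (4 * M) : ℝ) : ℂ) * (z i₀ * eval (fun i => z i) p) / (1 - F z) ^ 2‖ ≤ _
    rw [norm_div, norm_mul, norm_mul, norm_pow, Complex.norm_real,
      Real.norm_of_nonneg (by positivity), div_div, div_le_div_iff₀ (by positivity) (by positivity)]
    have h9 : ‖z i₀‖ * ‖eval (fun i => z i) p‖ ≤ 2 * M * (1 - ‖F z‖ ^ 2) := by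
      calc ‖z i₀‖ * ‖eval (fun i => z i) p‖ ≤ 1 * ‖eval (fun i => z i) p‖ :=
            mul_le_mul_of_nonneg_right h5 (norm_nonneg _)
        _ ≤ _ := by rw [one_mul]; exact h1
    have h10 : 0 ≤ ‖1 - F z‖ ^ 2 := by positivity
    calc 1 / (4 * M) * (‖z i₀‖ * ‖eval (fun i => z i) p‖) * (‖1 - F z‖ ^ 2 * 2)
        = (‖z i₀‖ * ‖eval (fun i => z i) p‖) * (‖1 - F z‖ ^ 2 / (2 * M)) := by
          field_simp
          ring
      _ ≤ (2 * M * (1 - ‖F z‖ ^ 2)) * (‖1 - F z‖ ^ 2 / (2 * M)) :=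
        mul_le_mul_of_nonneg_right h9 (by positivity)
      _ = _ := by field_simp
  have hkd : DifferentiableOn ℂ k (ball 0 1) := by
    intro z hz
    have h1 := (cayley_re (hF1 z hz)).2
    have h2 : (1 : ℂ) - F z ≠ 0 := norm_pos_iff.1 h1
    have h3 := hFd z hz
    have h4 := differentiable_eval p z
    have h5 : DifferentiableAt ℂ (fun z : Cn n => z i₀) z :=
      (EuclideanSpace.proj (𝕜 := ℂ) i₀).differentiable z
    have h6 : DifferentiableAt ℂ (fun z : Cn n => ((1 / (4 * M) : ℝ) : ℂ) *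
        (z i₀ * eval (fun i => z i) p) * ((1 - F z) ^ 2)⁻¹) z :=
      ((h5.fun_mul h4).const_mul _).fun_mul (((h3.const_sub 1).fun_pow 2).fun_inv
        (pow_ne_zero 2 h2))
    have h7 : k = fun z : Cn n => ((1 / (4 * M) : ℝ) : ℂ) * (z i₀ * eval (fun i => z i) p) *
        ((1 - F z) ^ 2)⁻¹ := by
      funext z
      exact div_eq_mul_inv _ _
    rw [h7]
    exact h6.differentiableWithinAt
  have hk0 : k 0 = 0 := by
    show ((1 / (4 * M) : ℝ) : ℂ) * ((0 : Cn n) i₀ * eval (fun i => (0 : Cn n) i) p) /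
      (1 - F 0) ^ 2 = 0
    simp
  have hg1 : (fun z => gR P Q z + k z) ∈ NB n := by
    refine ⟨hdiff.add hkd, ?_, by show gR P Q 0 + k 0 = 1; rw [h0, hk0, add_zero]⟩
    intro z hz
    have h1 := hk z hz
    have h2 := hre z hz
    have h3 := (abs_le.1 (Complex.abs_re_le_norm (k z))).1
    rw [Complex.add_re]
    linarith
  have hg2 : (fun z => gR P Q z - k z) ∈ NB n := by
    refine ⟨hdiff.sub hkd, ?_, by show gR P Q 0 - k 0 = 1; rw [h0, hk0, sub_zero]⟩
    intro z hz
    have h1 := hk z hz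
    have h2 := hre z hz
    have h3 := (abs_le.1 (Complex.abs_re_le_norm (k z))).2
    rw [Complex.sub_re]
    linarith
  have hkz := hext _ hg1 _ hg2 (1 / 2) (by norm_num) (by norm_num) (by
    intro z _
    push_cast
    ring)
  have hXp : X i₀ * p = 0 := by
    refine eq_zero_of_ball _ fun z hz => ?_
    have hz' : (WithLp.toLp 2 z : Cn n) ∈ ball (0 : Cn n) 1 := (mem_ball_iff _).2 hz
    have h1 := hkz _ hz'
    have h2 : k (WithLp.toLp 2 z) = 0 := by
      have h3 : gR P Q (WithLp.toLp 2 z) + k (WithLp.toLp 2 z) =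
        gR P Q (WithLp.toLp 2 z) - k (WithLp.toLp 2 z) := h1
      have h4 : (2 : ℂ) * k (WithLp.toLp 2 z) = 0 := by linear_combination h3
      rcases mul_eq_zero.1 h4 with h | h
      · norm_num at h
      · exact h
    have h5 : ((1 / (4 * M) : ℝ) : ℂ) * (z i₀ * eval z p) / (1 - F (WithLp.toLp 2 z)) ^ 2 = 0 := h2
    have h6 := (cayley_re (hF1 _ hz')).2
    have h7 : (1 : ℂ) - F (WithLp.toLp 2 z) ≠ 0 := norm_pos_iff.1 h6
    rw [div_eq_zero_iff] at h5
    rcases h5 with h5 | h5
    · rcases mul_eq_zero.1 h5 with h | h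
      · exfalso
        have h8 : (1 / (4 * M) : ℝ) = 0 := by exact_mod_cast h
        have h9 : (0 : ℝ) < 1 / (4 * M) := by positivity
        exact h9.ne' h8
      · rw [map_mul, eval_X]
        exact h
    · exact absurd h5 (pow_ne_zero 2 h7)
  rcases mul_eq_zero.1 hXp with h | h
  · exact absurd h (X_ne_zero i₀)
  · exact h

end

end Pool.Agent.Lib.MP_6ff8d9_an.Rat69
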